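import Mathlib

/-! Finite submodules which are almost stable under one semilinear operator. -/

set_option autoImplicit false
open scoped Pointwise

namespace Run7.h838.PT

open Submodule

universe u w

variable {R : Type w} [Ring R] {M : Type u} [AddCommGroup M] [Module R M]

/-- the submodule `N + ∑ i, ∑ j < l i, R T^j (v i)` -/
def chn {σ : R →+* R} (T : M →ₛₗ[σ] M) {ι : Type} (N : Submodule R M) (v : ι → M) (l : ι → ℕ) :
    Submodule R M :=
  N ⊔ ⨆ i, ⨆ j : Fin (l i), span R {T^[(j : ℕ)] (v i)}

/-- a proper inclusion of finite submodules has index at least `c` -/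
def HC (R : Type w) [Ring R] (M : Type u) [AddCommGroup M] [Module R M] (c : ℕ) : Prop :=
  ∀ P Q : Submodule R M, P < Q → Finite Q → c * Nat.card P ≤ Nat.card Q

/-- adding generators one by one -/
theorem addgen (n : ℕ) : ∀ (P H : Submodule R M), Finite H → P ≤ H →
    Nat.card H ≤ Nat.card P + n →
    ∃ (κ : Type) (_ : Fintype κ) (w : κ → M), H = P ⊔ ⨆ k, span R {w k} ∧
      ∀ c, HC R M c → c ^ Fintype.card κ * Nat.card P ≤ Nat.card H := by
  induction n using Nat.strong_induction_on with
  | _ n ih =>
    intro P H hH hPH hn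
    by_cases h : P = H
    · subst h
      refine ⟨Empty, inferInstance, fun e => e.elim, ?_, ?_⟩
      · simp
      · simp
    · have hlt : P < H := lt_of_le_of_ne hPH h
      obtain ⟨x, hxH, hxP⟩ := SetLike.exists_of_lt hlt
      set Q : Submodule R M := P ⊔ span R {x} with hQ
      have hxQ : x ∈ Q := (le_sup_right : span R {x} ≤ Q) (mem_span_singleton_self x)
      have hPQ : P < Q := lt_of_le_of_ne le_sup_left fun e => hxP (e ▸ hxQ)
      have hQH : Q ≤ H := sup_le hPH ((span_singleton_le_iff_mem _ _).2 hxH)
      have hQf : Finite Q := (Set.toFinite (H : Set M)).subset hQH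
      have hPf : Finite P := (Set.toFinite (H : Set M)).subset hPH
      have hlt2 : Nat.card P < Nat.card Q := by
        have : (P : Set M) ⊂ (Q : Set M) := hPQ
        exact Set.ncard_lt_ncard this (Set.toFinite (Q : Set M))
      have hle2 : Nat.card Q ≤ Nat.card H := Nat.card_mono (Set.toFinite (H : Set M)) hQH
      obtain ⟨κ, hκ, w, h1, h2⟩ := ih (Nat.card H - Nat.card Q) (by omega) Q H hH hQH (by omega)
      refine ⟨Option κ, inferInstance, fun o => o.elim x w, ?_, ?_⟩
      · rw [iSup_option, ← sup_assoc]
        exact h1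
      · intro c hc
        rw [Fintype.card_option, pow_succ, mul_assoc]
        exact (Nat.mul_le_mul_left _ (hc P Q hPQ hQf)).trans (h2 c hc)

variable {σ : R →+* R} (T : M →ₛₗ[σ] M)

theorem chain_mem {ι : Type} (N : Submodule R M) (v : ι → M) (l : ι → ℕ) (i : ι) (j : ℕ)
    (hj : j < l i) : T^[j] (v i) ∈ chn T N v l := by
  refine (le_sup_right : _ ≤ chn T N v l) ?_
  refine (le_iSup (fun i => ⨆ j : Fin (l i), span R {T^[(j : ℕ)] (v i)}) i) ?_
  exact (le_iSup (fun j : Fin (l i) => span R {T^[(j : ℕ)] (v i)}) ⟨j, hj⟩)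
    (mem_span_singleton_self _)

theorem chn_le {ι : Type} {N : Submodule R M} {v : ι → M} {l : ι → ℕ} {P : Submodule R M}
    (hN : N ≤ P) (h : ∀ i j, j < l i → T^[j] (v i) ∈ P) : chn T N v l ≤ P := by
  refine sup_le hN (iSup_le fun i => iSup_le fun j => ?_)
  rw [span_singleton_le_iff_mem]
  exact h i j j.2

theorem le_chn {ι : Type} (N : Submodule R M) (v : ι → M) (l : ι → ℕ) : N ≤ chn T N v l :=
  le_sup_left

/-- the image under `T` of a chain submodule lies in the one with chains longer by one -/
theorem map_chn [RingHomSurjective σ] {ι : Type} (N : Submodule R M) (hN : ∀ x ∈ N, T x ∈ N) (v : ι → M) (l : ι → ℕ) :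
    (chn T N v l).map T ≤ chn T N v (fun i => l i + 1) := by
  rw [map_le_iff_le_comap]
  refine chn_le T (fun x hx => le_chn T N v _ (hN x hx)) fun i j hj => ?_
  rw [mem_comap]
  have h1 := chain_mem T N v (fun i => l i + 1) i (j + 1) (by simpa using hj)
  rwa [Function.iterate_succ_apply'] at h1

/-- **The structure of the finite submodules which are almost stable under `T`.** -/
theorem structure_aux [RingHomSurjective σ] (n : ℕ) :
    ∀ (H : Submodule R M), Finite H → Nat.card H ≤ n →
    ∃ (N : Submodule R M) (ι : Type) (_ : Fintype ι) (v : ι → M) (l : ι → ℕ), (∀ i, 1 ≤ l i) ∧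
      (∀ x ∈ N, T x ∈ N) ∧ H = chn T N v l ∧ ∀ c, HC R M c →
      c ^ Fintype.card ι * Nat.card (H ⊓ H.comap T : Submodule R M) ≤ Nat.card H ∧
      c ^ (∑ i, l i) * Nat.card N ≤ Nat.card H := by
  induction n with
  | zero =>
    intro H hH hn
    exfalso
    have : 0 < Nat.card H := Nat.card_pos
    omega
  | succ n ih =>
    intro H hH hn
    set H' : Submodule R M := H ⊓ H.comap T with hH'
    have hH'H : H' ≤ H := inf_le_left
    have hH'f : Finite H' := (Set.toFinite (H : Set M)).subset hH'H
    by_cases h : H' = H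
    · refine ⟨H, Empty, inferInstance, fun e => e.elim, fun e => e.elim, fun e => e.elim, ?_, ?_,
        fun c _ => ⟨?_, ?_⟩⟩
      · intro x hx
        rw [← h] at hx
        exact hx.2
      · simp [chn]
      · rw [h]; simp
      · simp
    · have hlt : H' < H := lt_of_le_of_ne hH'H h
      have hlt2 : Nat.card H' < Nat.card H := by
        have : (H' : Set M) ⊂ (H : Set M) := hlt
        exact Set.ncard_lt_ncard this (Set.toFinite (H : Set M))
      obtain ⟨N, ι, hι, v, l, h1, h2, h3, h45⟩ := ih H' hH'f (by omega)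
      -- the submodule `H' + T H'`
      set G : Submodule R M := chn T N v (fun i => l i + 1) with hG
      have hG1 : G = H' ⊔ H'.map T := by
        apply le_antisymm
        · refine chn_le T ((le_chn T N v l).trans (h3 ▸ le_sup_left)) fun i j hj => ?_
          rcases Nat.lt_or_ge j (l i) with hj' | hj'
          · exact (le_sup_left : H' ≤ _) (h3 ▸ chain_mem T N v l i j hj')
          · have hj2 : j = (l i - 1) + 1 := by have := h1 i; simp at hj; omega
            rw [hj2, Function.iterate_succ_apply']
            refine (le_sup_right : H'.map T ≤ _) (mem_map_of_mem ?_)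
            exact h3 ▸ chain_mem T N v l i (l i - 1) (by have := h1 i; omega)
        · refine sup_le ?_ ?_
          · conv_lhs => rw [h3]
            refine chn_le T (le_chn T N v _) fun i j hj => chain_mem T N v _ i j (by simp; omega)
          · conv_lhs => rw [h3]
            exact map_chn T N h2 v l
      have hGH : G ≤ H := by
        rw [hG1]
        refine sup_le hH'H ?_
        rw [map_le_iff_le_comap]
        exact inf_le_right
      have hGf : Finite G := (Set.toFinite (H : Set M)).subset hGH
      -- `|H' ∩ T⁻¹ H'|`: the growth from `H'` to `G`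
      have hgrow : ∀ c, HC R M c → c ^ Fintype.card ι * Nat.card H' ≤ Nat.card G := by
        intro c hc
        obtain ⟨h4, -⟩ := h45 c hc
        -- `|G / H'| = |H' / (H' ∩ T⁻¹ H')|`
        have key : Nat.card G * Nat.card (H' ⊓ H'.comap T : Submodule R M) =
            Nat.card H' * Nat.card H' := by
          set f : H' →+ (M ⧸ H'.toAddSubgroup) :=
            (QuotientAddGroup.mk' H'.toAddSubgroup).comp
              ((T : M →+ M).comp H'.toAddSubgroup.subtype) with hf
          have e1 : Nat.card H' = Nat.card f.ker * Nat.card f.range := by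
            rw [← Nat.card_congr (QuotientAddGroup.quotientKerEquivRange f).toEquiv]
            rw [mul_comm]
            exact AddSubgroup.card_eq_card_quotient_mul_card_addSubgroup f.ker
          have hfk : ∀ x : H', x ∈ f.ker ↔ T x.1 ∈ H' := fun x => by
            rw [AddMonoidHom.mem_ker]
            exact QuotientAddGroup.eq_zero_iff (N := H'.toAddSubgroup) (T x.1)
          have e2 : Nat.card f.ker = Nat.card (H' ⊓ H'.comap T : Submodule R M) := by
            refine Nat.card_congr ⟨fun x => ⟨x.1.1, x.1.2, ?_⟩, fun x => ⟨⟨x.1, x.2.1⟩, ?_⟩, ?_, ?_⟩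
            · exact (hfk _).1 x.2
            · exact (hfk _).2 x.2.2
            · intro x; rfl
            · intro x; rfl
          have e3 : Nat.card G = Nat.card H' * Nat.card f.range := by
            set g : G →+ (M ⧸ H'.toAddSubgroup) :=
              (QuotientAddGroup.mk' H'.toAddSubgroup).comp G.toAddSubgroup.subtype with hg
            have e4 : Nat.card G = Nat.card g.ker * Nat.card g.range := by
              rw [← Nat.card_congr (QuotientAddGroup.quotientKerEquivRange g).toEquiv]
              rw [mul_comm]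
              exact AddSubgroup.card_eq_card_quotient_mul_card_addSubgroup g.ker
            have hH'G : H' ≤ G := hG1 ▸ le_sup_left
            have hgk : ∀ x : G, x ∈ g.ker ↔ x.1 ∈ H' := fun x => by
              rw [AddMonoidHom.mem_ker]
              exact QuotientAddGroup.eq_zero_iff (N := H'.toAddSubgroup) x.1
            have e5 : Nat.card g.ker = Nat.card H' := by
              refine Nat.card_congr ⟨fun x => ⟨x.1.1, ?_⟩, fun x => ⟨⟨x.1, hH'G x.2⟩, ?_⟩, ?_, ?_⟩
              · exact (hgk _).1 x.2
              · exact (hgk _).2 x.2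
              · intro x; rfl
              · intro x; rfl
            have e6 : g.range = f.range := by
              ext y
              constructor
              · rintro ⟨x, rfl⟩
                have hx : (x : M) ∈ H' ⊔ H'.map T := by rw [← hG1]; exact x.2
                rw [mem_sup] at hx
                obtain ⟨a, ha, b, hb, hab⟩ := hx
                obtain ⟨z, hz, rfl⟩ := hb
                refine ⟨⟨z, hz⟩, ?_⟩
                have hx2 : (x : M) = a + T z := hab.symm
                have : -(T z) + (x : M) = a := by rw [hx2]; abel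
                have h7 : -(T z) + (x : M) ∈ H'.toAddSubgroup := by rw [this]; exact ha
                exact (QuotientAddGroup.eq (s := H'.toAddSubgroup)).2 h7
              · rintro ⟨x, rfl⟩
                refine ⟨⟨T x.1, ?_⟩, ?_⟩
                · rw [hG1]
                  exact (le_sup_right : H'.map T ≤ _) (mem_map_of_mem x.2)
                · rfl
            rw [e4, e5, e6]
          rw [e3, mul_assoc, ← e2, mul_comm (Nat.card f.range), ← e1]
        have hpos : 0 < Nat.card (H' ⊓ H'.comap T : Submodule R M) := by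
          have : Finite (H' ⊓ H'.comap T : Submodule R M) :=
            (Set.toFinite (H' : Set M)).subset inf_le_left
          exact Nat.card_pos
        by_contra hcon
        push Not at hcon
        have h6 : Nat.card G * Nat.card (H' ⊓ H'.comap T : Submodule R M) <
            c ^ Fintype.card ι * Nat.card H' * Nat.card (H' ⊓ H'.comap T : Submodule R M) :=
          Nat.mul_lt_mul_of_pos_right hcon hpos
        rw [key] at h6
        have h7 : c ^ Fintype.card ι * Nat.card H' *
            Nat.card (H' ⊓ H'.comap T : Submodule R M) ≤ Nat.card H' * Nat.card H' := by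
          calc _ = (c ^ Fintype.card ι * Nat.card (H' ⊓ H'.comap T : Submodule R M)) *
                Nat.card H' := by ring
            _ ≤ Nat.card H' * Nat.card H' := Nat.mul_le_mul_right _ h4
        omega
      obtain ⟨κ, hκ, w, g1, g2'⟩ := addgen (Nat.card H - Nat.card G) G H hH hGH (by
        have : Nat.card G ≤ Nat.card H := Nat.card_mono (Set.toFinite (H : Set M)) hGH
        omega)
      refine ⟨N, ι ⊕ κ, inferInstance, Sum.elim v w, Sum.elim (fun i => l i + 1) (fun _ => 1), ?_,
        h2, ?_, fun c hc => ?_⟩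
      · rintro (i | k)
        · simp
        · simp
      · rw [g1]
        conv_lhs => rw [hG]
        unfold chn
        rw [iSup_sum, ← sup_assoc]
        simp
      obtain ⟨h4, h5⟩ := h45 c hc
      have g2 := g2' c hc
      have hgrow := hgrow c hc
      constructor
      · rw [Fintype.card_sum, pow_add]
        calc c ^ Fintype.card ι * c ^ Fintype.card κ * Nat.card H'
            = c ^ Fintype.card κ * (c ^ Fintype.card ι * Nat.card H') := by ring
          _ ≤ c ^ Fintype.card κ * Nat.card G := Nat.mul_le_mul_left _ hgrow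
          _ ≤ Nat.card H := g2
      · rw [Fintype.sum_sum_type]
        simp only [Sum.elim_inl, Sum.elim_inr, Finset.sum_const, Finset.card_univ, smul_eq_mul,
          mul_one, Finset.sum_add_distrib]
        rw [pow_add, pow_add]
        calc c ^ (∑ i, l i) * c ^ Fintype.card ι * c ^ Fintype.card κ * Nat.card N
            = c ^ Fintype.card κ * (c ^ Fintype.card ι * (c ^ (∑ i, l i) * Nat.card N)) := by ring
          _ ≤ c ^ Fintype.card κ * (c ^ Fintype.card ι * Nat.card H') := by gcongr
          _ ≤ c ^ Fintype.card κ * Nat.card G := Nat.mul_le_mul_left _ hgrow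
          _ ≤ Nat.card H := g2

/-- the same with the indices `Fin r` -/
theorem structure_fin [RingHomSurjective σ] (H : Submodule R M) [Finite H] :
    ∃ (N : Submodule R M) (r : ℕ) (v : Fin r → M) (l : Fin r → ℕ), (∀ i, 1 ≤ l i) ∧
      (∀ x ∈ N, T x ∈ N) ∧ H = chn T N v l ∧ ∀ c, HC R M c →
      c ^ r * Nat.card (H ⊓ H.comap T : Submodule R M) ≤ Nat.card H ∧
      c ^ (∑ i, l i) * Nat.card N ≤ Nat.card H := by
  obtain ⟨N, ι, hι, v, l, h1, h2, h3, h4⟩ := structure_aux T (Nat.card H) H inferInstance le_rfl
  set e := (Fintype.equivFin ι).symm with he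
  refine ⟨N, Fintype.card ι, fun i => v (e i), fun i => l (e i), fun i => h1 _, h2, ?_,
    fun c hc => ?_⟩
  · rw [h3]
    unfold chn
    congr 1
    exact (Equiv.iSup_comp (g := fun i => ⨆ j : Fin (l i), span R {T^[(j : ℕ)] (v i)}) e).symm
  · obtain ⟨h5, h6⟩ := h4 c hc
    refine ⟨h5, ?_⟩
    rwa [Equiv.sum_comp e l]

/-- **Almost stability.** -/
theorem almost [DecidableEq M] (H : Submodule R M) [Finite H] (A S : Finset M)
    (hA : A.Nonempty) (K L : ℝ) (hS : (S.card : ℝ) ≤ L) (hcov : ∀ a ∈ A, ∃ s ∈ S, a - s ∈ H)
    (hK : ((A + A.image T).card : ℝ) ≤ K * A.card) :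
    (A.card : ℝ) ≤ K * L ^ 2 * Nat.card (H ⊓ H.comap T : Submodule R M) := by
  classical
  have hA0 : 0 < A.card := hA.card_pos
  -- a popular coset
  obtain ⟨s, hs, hmax⟩ : ∃ s ∈ S, A.card ≤ S.card * (A.filter fun a => a - s ∈ H).card := by
    have hSne : S.Nonempty := by
      obtain ⟨a, ha⟩ := hA
      obtain ⟨s, hs, -⟩ := hcov a ha
      exact ⟨s, hs⟩
    obtain ⟨s, hs, hm⟩ := S.exists_max_image (fun s => (A.filter fun a => a - s ∈ H).card) hSne
    refine ⟨s, hs, ?_⟩
    calc A.card ≤ (S.biUnion fun s => A.filter fun a => a - s ∈ H).card := by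
          refine Finset.card_le_card fun a ha => ?_
          obtain ⟨t, ht, h⟩ := hcov a ha
          exact Finset.mem_biUnion.2 ⟨t, ht, Finset.mem_filter.2 ⟨ha, h⟩⟩
      _ ≤ ∑ t ∈ S, (A.filter fun a => a - t ∈ H).card := Finset.card_biUnion_le
      _ ≤ ∑ _t ∈ S, (A.filter fun a => a - s ∈ H).card := Finset.sum_le_sum fun t ht => hm t ht
      _ = S.card * (A.filter fun a => a - s ∈ H).card := by simp
  set A' := A.filter fun a => a - s ∈ H with hA'
  have hsub : A' ⊆ A := Finset.filter_subset _ _
  have hdiff : ∀ a ∈ A', ∀ b ∈ A', a - b ∈ H := by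
    intro a ha b hb
    have h1 := (Finset.mem_filter.1 ha).2
    have h2 := (Finset.mem_filter.1 hb).2
    have : a - b = (a - s) - (b - s) := by abel
    rw [this]
    exact H.sub_mem h1 h2
  set q : M → M ⧸ H := fun x => Submodule.Quotient.mk x with hq
  have hqe : ∀ x y, q x = q y ↔ x - y ∈ H := fun x y => Submodule.Quotient.eq H
  set Q := A'.image (fun a => q (T a)) with hQ
  -- `|A'| |Q| ≤ |A + T A|`
  have hrep : ∀ y ∈ Q, ∃ a ∈ A', q (T a) = y := fun y hy => by
    simpa using Finset.mem_image.1 hy
  choose! rep hrep1 hrep2 using hrep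
  have h1 : A'.card * Q.card ≤ (A + A.image T).card := by
    rw [← Finset.card_product]
    refine Finset.card_le_card_of_injOn (fun x => x.1 + T (rep x.2)) ?_ ?_
    · rintro ⟨a, y⟩ hx
      simp only [Finset.coe_product, Set.mem_prod, Finset.mem_coe] at hx
      exact Finset.add_mem_add (hsub hx.1) (Finset.mem_image_of_mem _ (hsub (hrep1 y hx.2)))
    · rintro ⟨a, y⟩ hx ⟨b, z⟩ hz h
      simp only [Finset.coe_product, Set.mem_prod, Finset.mem_coe] at hx hz
      simp only at h
      have h2 : T (rep y) - T (rep z) ∈ H := by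
        have : T (rep y) - T (rep z) = b - a := by
          calc T (rep y) - T (rep z) = a + T (rep y) - a - T (rep z) := by abel
            _ = b + T (rep z) - a - T (rep z) := by rw [h]
            _ = b - a := by abel
        rw [this]
        exact hdiff b hz.1 a hx.1
      have h3 : y = z := by
        rw [← hrep2 y hx.2, ← hrep2 z hz.2]
        exact (hqe _ _).2 h2
      subst h3
      simpa using h
  -- `|A'| ≤ |Q| |H'|`
  set H' : Submodule R M := H ⊓ H.comap T with hH'
  have hH'f : Finite H' := (Set.toFinite (H : Set M)).subset inf_le_left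
  have h2 : A'.card ≤ Q.card * Nat.card H' := by
    have h3 : A'.card = ∑ y ∈ Q, (A'.filter fun a => q (T a) = y).card :=
      Finset.card_eq_sum_card_fiberwise fun a ha => Finset.mem_image_of_mem _ ha
    rw [h3]
    have h4 : ∀ y ∈ Q, (A'.filter fun a => q (T a) = y).card ≤ Nat.card H' := by
      intro y hy
      have : Fintype H' := Fintype.ofFinite _
      rw [Nat.card_eq_fintype_card, ← Finset.card_univ]
      have hd : ∀ a ∈ A'.filter (fun a => q (T a) = y), a - rep y ∈ H' := by
        intro a ha
        obtain ⟨ha1, ha2⟩ := Finset.mem_filter.1 ha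
        refine ⟨hdiff a ha1 _ (hrep1 y hy), ?_⟩
        change T (a - rep y) ∈ H
        rw [map_sub]
        exact (hqe _ _).1 (ha2.trans (hrep2 y hy).symm)
      refine Finset.card_le_card_of_injOn
        (fun a => if h : a - rep y ∈ H' then (⟨a - rep y, h⟩ : H') else 0)
        (fun _ _ => Finset.mem_coe.2 (Finset.mem_univ _)) ?_
      intro a ha b hb hab
      simp only [dif_pos (hd a ha), dif_pos (hd b hb), Subtype.mk.injEq] at hab
      exact sub_left_injective hab
    calc ∑ y ∈ Q, (A'.filter fun a => q (T a) = y).card ≤ ∑ _y ∈ Q, Nat.card H' :=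
          Finset.sum_le_sum h4
      _ = Q.card * Nat.card H' := by simp
  -- combine
  have e1 : (A.card : ℝ) ≤ L * A'.card := by
    have : (A.card : ℝ) ≤ S.card * A'.card := by exact_mod_cast hmax
    exact this.trans (mul_le_mul_of_nonneg_right hS (Nat.cast_nonneg _))
  have e2 : (A'.card : ℝ) * Q.card ≤ K * A.card := le_trans (by exact_mod_cast h1) hK
  have e3 : (A'.card : ℝ) ≤ Q.card * Nat.card H' := by exact_mod_cast h2
  have eA : (0 : ℝ) < A.card := by exact_mod_cast hA0
  have eL : 0 ≤ L := (Nat.cast_nonneg _).trans hS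
  have e4 : (A'.card : ℝ) ^ 2 ≤ K * A.card * Nat.card H' := by
    calc (A'.card : ℝ) ^ 2 = A'.card * A'.card := sq _
      _ ≤ A'.card * (Q.card * Nat.card H') := by gcongr
      _ = (A'.card * Q.card) * Nat.card H' := by ring
      _ ≤ K * A.card * Nat.card H' := by gcongr
  have e5 : (A.card : ℝ) * A.card ≤ (K * L ^ 2 * Nat.card H') * A.card := by
    calc (A.card : ℝ) * A.card ≤ (L * A'.card) * (L * A'.card) :=
          mul_le_mul e1 e1 eA.le (by positivity)
      _ = L ^ 2 * (A'.card : ℝ) ^ 2 := by ring
      _ ≤ L ^ 2 * (K * A.card * Nat.card H') := by gcongr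
      _ = _ := by ring
  exact le_of_mul_le_mul_right e5 eA

/-- the number of the elements of a chain submodule -/
theorem card_chn_le [Finite R] {r : ℕ} (N : Submodule R M) [Finite N] (v : Fin r → M)
    (l : Fin r → ℕ) : Finite (chn T N v l) ∧
      Nat.card (chn T N v l) ≤ Nat.card N * Nat.card R ^ (∑ i, l i) := by
  classical
  set f : N × ((i : Fin r) → Fin (l i) → R) → M := fun x =>
    x.1.1 + ∑ i, ∑ j : Fin (l i), x.2 i j • T^[(j : ℕ)] (v i) with hf
  have hsub : ((chn T N v l : Submodule R M) : Set M) ⊆ Set.range f := by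
    let P : Submodule R M :=
      { carrier := Set.range f
        zero_mem' := ⟨0, by simp [hf]⟩
        add_mem' := by
          rintro _ _ ⟨x, rfl⟩ ⟨y, rfl⟩
          refine ⟨x + y, ?_⟩
          simp only [hf, Prod.fst_add, Submodule.coe_add, Prod.snd_add, Pi.add_apply, add_smul,
            Finset.sum_add_distrib]
          abel
        smul_mem' := by
          rintro c _ ⟨x, rfl⟩
          refine ⟨c • x, ?_⟩
          simp only [hf, Prod.smul_fst, Submodule.coe_smul, Prod.smul_snd, Pi.smul_apply,
            smul_add, Finset.smul_sum, smul_assoc] }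
    have : chn T N v l ≤ P := by
      refine chn_le T (fun x hx => ⟨(⟨x, hx⟩, 0), by simp [hf]⟩) fun i j hj => ?_
      refine ⟨(0, fun i' j' => if i' = i ∧ (j' : ℕ) = j then 1 else 0), ?_⟩
      simp only [hf]
      rw [Finset.sum_eq_single i, Finset.sum_eq_single ⟨j, hj⟩]
      · simp
      · intro b _ hb
        have : (b : ℕ) ≠ j := fun h => hb (Fin.ext h)
        simp [this]
      · simp
      · intro b _ hb
        simp [hb]
      · simp
    exact this
  have hfin : (Set.range f).Finite := Set.finite_range f
  have h1 : Finite (chn T N v l) := hfin.subset hsub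
  refine ⟨h1, ?_⟩
  calc Nat.card (chn T N v l) ≤ Nat.card (Set.range f) := Nat.card_mono hfin hsub
    _ ≤ Nat.card (N × ((i : Fin r) → Fin (l i) → R)) := Finite.card_range_le f
    _ = _ := by
      rw [Nat.card_prod, Nat.card_pi]
      simp_rw [Nat.card_fun, Nat.card_fin]
      rw [Finset.prod_pow_eq_pow_sum]

/-- **The converse.** -/
theorem converse [Finite R] [RingHomSurjective σ] [DecidableEq M] (L : ℝ) (A : Finset M)
    (N : Submodule R M) (hN : ∀ x ∈ N, T x ∈ N) {r : ℕ} (v : Fin r → M) (l : Fin r → ℕ)
    (S : Finset M) [Finite (chn T N v l)] (hQ : (Nat.card (chn T N v l) : ℝ) ≤ L * A.card)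
    (hS : (S.card : ℝ) ≤ L) (hcov : ∀ a ∈ A, ∃ s ∈ S, a - s ∈ chn T N v l) :
    ((A + A.image T).card : ℝ) ≤ L ^ 3 * (Nat.card R : ℝ) ^ r * A.card := by
  classical
  -- the submodule with chains longer by one
  set Q := chn T N v l with hQd
  set Q' := chn T N v (fun i => l i + 1) with hQ'
  have hle : Q ≤ Q' := chn_le T (le_chn T N v _) fun i j hj =>
    chain_mem T N v (fun i => l i + 1) i j (Nat.lt_succ_of_lt hj)
  have hmap : ∀ x ∈ Q, T x ∈ Q' := fun x hx => map_chn T N hN v l (mem_map_of_mem hx)
  have h1 : Q' ≤ chn T Q (fun i => T^[l i] (v i)) (fun _ => 1) := by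
    refine chn_le T ((le_chn T N v l).trans (le_chn T Q _ _)) fun i j hj => ?_
    have hj' : j < l i + 1 := hj
    rcases Nat.lt_or_ge j (l i) with h | h
    · exact le_chn T Q _ _ (chain_mem T N v l i j h)
    · have : j = l i := by omega
      subst this
      exact chain_mem T Q (fun i => T^[l i] (v i)) (fun _ => 1) i 0 one_pos
  obtain ⟨h2, h3⟩ := card_chn_le T Q (fun i => T^[l i] (v i)) (fun _ => 1)
  have h4 : Finite Q' := (Set.toFinite ((chn T Q (fun i => T^[l i] (v i)) (fun _ => 1) :
    Submodule R M) : Set M)).subset h1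
  have h5 : Nat.card Q' ≤ Nat.card Q * Nat.card R ^ r := by
    refine (Nat.card_mono (Set.toFinite _) h1).trans (h3.trans (le_of_eq ?_))
    simp
  have : Fintype Q' := Fintype.ofFinite _
  have h6 : (A + A.image T) ⊆
      (S ×ˢ S ×ˢ (Finset.univ : Finset Q')).image fun x => x.1 + T x.2.1 + x.2.2.1 := by
    intro x hx
    obtain ⟨a, ha, y, hy, rfl⟩ := Finset.mem_add.1 hx
    obtain ⟨b, hb, rfl⟩ := Finset.mem_image.1 hy
    obtain ⟨s, hs, h⟩ := hcov a ha
    obtain ⟨t, ht, h'⟩ := hcov b hb
    refine Finset.mem_image.2 ⟨(s, t, ⟨(a - s) + T (b - t), Q'.add_mem (hle h) (hmap _ h')⟩), ?_, ?_⟩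
    · simp [hs, ht]
    · simp only [map_sub]
      abel
  have h7 : (A + A.image T).card ≤ S.card * (S.card * Nat.card Q') := by
    refine (Finset.card_le_card h6).trans (Finset.card_image_le.trans (le_of_eq ?_))
    rw [Finset.card_product, Finset.card_product, Finset.card_univ, Nat.card_eq_fintype_card]
  have hL : 0 ≤ L := (Nat.cast_nonneg _).trans hS
  have h5' : (Nat.card Q' : ℝ) ≤ Nat.card Q * (Nat.card R : ℝ) ^ r := by exact_mod_cast h5
  calc ((A + A.image T).card : ℝ) ≤ S.card * (S.card * Nat.card Q') := by exact_mod_cast h7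
    _ ≤ L * (L * (L * A.card * (Nat.card R : ℝ) ^ r)) := by
      gcongr
      exact h5'.trans (by gcongr)
    _ = _ := by ring

end Run7.h838.PT
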