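import Pool.Agent.Run7.h838.PT.Lin
import Pool.Agent.R111.PM.Fin
import Pool.Agent.TH404.Tor.Final

/-! The Freiman-Ruzsa theorem for modules over polynomial rings. -/

set_option autoImplicit false
open scoped Pointwise

namespace Run7.h838.PT

open Submodule

universe u w

/-- Rings of scalars: any ring `R`, absolute exponents. -/
theorem modules (R : Type w) [Ring R] {M : Type u} [AddCommGroup M] [Module R M] [DecidableEq M]
    {σ : R →+* R} [RingHomSurjective σ] (T : M →ₛₗ[σ] M) (K : ℝ) (A : Finset M)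
    (hA : A.Nonempty) (hR : ∀ r : R, ((A + A.image fun x => r • x).card : ℝ) ≤ K * A.card)
    (hT : ((A + A.image T).card : ℝ) ≤ K * A.card) :
    ∃ (N : Submodule R M) (r : ℕ) (v : Fin r → M) (l : Fin r → ℕ) (S : Finset M),
      (∀ i, 1 ≤ l i) ∧ (∀ x ∈ N, T x ∈ N) ∧ Finite (chn T N v l) ∧
      (Nat.card (chn T N v l) : ℝ) ≤ 64 * K ^ 59466 * A.card ∧ (S.card : ℝ) ≤ 64 * K ^ 59468 ∧
      (∀ a ∈ A, ∃ s ∈ S, a - s ∈ chn T N v l) ∧ ∀ c, HC R M c →
      (c : ℝ) ^ r ≤ 262144 * K ^ 178403 ∧ c ^ (∑ i, l i) * Nat.card N ≤ Nat.card (chn T N v l) := by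
  obtain ⟨H, S, hf, h1, h2, h3⟩ := Pool.Agent.R111.PM.modules R K A hA hR
  have h4 := almost T H A S hA K _ h2 h3 hT
  obtain ⟨N, r, v, l, g1, g2, g3, g4⟩ := structure_fin T H
  refine ⟨N, r, v, l, S, g1, g2, g3 ▸ hf, g3 ▸ h1, h2, fun a ha => g3 ▸ h3 a ha, fun c hc => ?_⟩
  obtain ⟨g5, g6⟩ := g4 c hc
  refine ⟨?_, g3 ▸ g6⟩
  have hA0 : (0 : ℝ) < A.card := by exact_mod_cast hA.card_pos
  have hK0 : 0 ≤ K := by
    have h7 := (Nat.cast_nonneg (α := ℝ) (A + A.image T).card).trans hT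
    nlinarith
  have hH' : Finite (H ⊓ H.comap T : Submodule R M) :=
    (Set.toFinite (H : Set M)).subset inf_le_left
  have hpos : (0 : ℝ) < Nat.card (H ⊓ H.comap T : Submodule R M) := by
    exact_mod_cast (Nat.card_pos : 0 < Nat.card (H ⊓ H.comap T : Submodule R M))
  have e1 : (c : ℝ) ^ r * Nat.card (H ⊓ H.comap T : Submodule R M) ≤ Nat.card H := by
    exact_mod_cast g5
  have hpw : K ^ 178403 = K ^ 59466 * (K * (K ^ 59468) ^ 2) := by
    rw [← pow_mul, ← pow_succ', ← pow_add]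
  rw [hpw]
  have hp1 : (0 : ℝ) ≤ K ^ 59466 := pow_nonneg hK0 _
  generalize K ^ 59466 = a at *
  generalize K ^ 59468 = b at *
  have e2 : (c : ℝ) ^ r * Nat.card (H ⊓ H.comap T : Submodule R M) ≤
      262144 * (a * (K * b ^ 2)) * Nat.card (H ⊓ H.comap T : Submodule R M) := by
    calc (c : ℝ) ^ r * Nat.card (H ⊓ H.comap T : Submodule R M)
        ≤ 64 * a * A.card := e1.trans h1
      _ ≤ 64 * a * (K * (64 * b) ^ 2 *
          Nat.card (H ⊓ H.comap T : Submodule R M)) := by gcongr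
      _ = _ := by ring
  exact le_of_mul_le_mul_right e2 hpos

/-- a finite field (or any finite division ring): the index is at least the number of scalars -/
theorem HC_field (F : Type w) [DivisionRing F] (M : Type u) [AddCommGroup M] [Module F M] :
    HC F M (Nat.card F) := by
  intro P Q hPQ hQ
  obtain ⟨x, hxQ, hxP⟩ := SetLike.exists_of_lt hPQ
  rw [← Nat.card_prod]
  refine Nat.card_le_card_of_injective
    (fun y : F × P => (⟨y.1 • x + y.2.1, Q.add_mem (Q.smul_mem _ hxQ) (hPQ.le y.2.2)⟩ : Q)) ?_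
  rintro ⟨a, y⟩ ⟨b, z⟩ h
  simp only [Subtype.mk.injEq] at h
  have h1 : (a - b) • x = z.1 - y.1 := by
    rw [sub_smul, sub_eq_sub_iff_add_eq_add, h]
    abel
  have h2 : a = b := by
    by_contra hne
    have h3 : a - b ≠ 0 := sub_ne_zero.2 hne
    refine hxP ?_
    have h4 : x = (a - b)⁻¹ • (z.1 - y.1) := by rw [← h1, smul_smul, inv_mul_cancel₀ h3, one_smul]
    rw [h4]
    exact P.smul_mem _ (P.sub_mem z.2 y.2)
  subst h2
  have h5 : y.1 = z.1 := by simpa using h
  rw [Prod.mk.injEq]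
  exact ⟨rfl, Subtype.ext h5⟩

/-- any ring: the index is at least two -/
theorem HC_two (R : Type w) [Ring R] (M : Type u) [AddCommGroup M] [Module R M] : HC R M 2 := by
  intro P Q hPQ hQ
  have hP : Finite P := (Set.toFinite (Q : Set M)).subset hPQ.le
  have h1 : Nat.card (P.toAddSubgroup.addSubgroupOf Q.toAddSubgroup) = Nat.card P :=
    Nat.card_congr (AddSubgroup.addSubgroupOfEquivOfLe
      (show P.toAddSubgroup ≤ Q.toAddSubgroup from hPQ.le)).toEquiv
  have h2 := AddSubgroup.card_mul_index (P.toAddSubgroup.addSubgroupOf Q.toAddSubgroup)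
  have h3 : (P.toAddSubgroup.addSubgroupOf Q.toAddSubgroup).index ≠ 1 := by
    rw [Ne, AddSubgroup.index_eq_one, AddSubgroup.addSubgroupOf_eq_top]
    exact fun h => hPQ.not_ge h
  have h4 : (P.toAddSubgroup.addSubgroupOf Q.toAddSubgroup).index ≠ 0 := by
    have : Finite Q.toAddSubgroup := hQ
    exact AddSubgroup.index_ne_zero_of_finite
  have h5 : Nat.card Q.toAddSubgroup = Nat.card Q := rfl
  rw [h1, h5] at h2
  calc 2 * Nat.card P ≤ (P.toAddSubgroup.addSubgroupOf Q.toAddSubgroup).index * Nat.card P :=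
        Nat.mul_le_mul_right _ (by omega)
    _ = Nat.card Q := by rw [mul_comm, h2]

/-- groups of exponent `m`: the index is at least the least prime factor of `m` -/
theorem HC_exp {Γ : Type u} [AddCommGroup Γ] (m : ℕ) (htor : ∀ x : Γ, m • x = 0) :
    HC ℤ Γ m.minFac := by
  intro P Q hPQ hQ
  have hP : Finite P := (Set.toFinite (Q : Set Γ)).subset hPQ.le
  have h1 : Nat.card (P.toAddSubgroup.addSubgroupOf Q.toAddSubgroup) = Nat.card P :=
    Nat.card_congr (AddSubgroup.addSubgroupOfEquivOfLe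
      (show P.toAddSubgroup ≤ Q.toAddSubgroup from hPQ.le)).toEquiv
  have h2 := AddSubgroup.card_mul_index (P.toAddSubgroup.addSubgroupOf Q.toAddSubgroup)
  set i := (P.toAddSubgroup.addSubgroupOf Q.toAddSubgroup).index with hi
  have h3 : i ≠ 1 := by
    rw [hi, Ne, AddSubgroup.index_eq_one, AddSubgroup.addSubgroupOf_eq_top]
    exact fun h => hPQ.not_ge h
  have h4 : i ≠ 0 := by
    have : Finite Q.toAddSubgroup := hQ
    exact AddSubgroup.index_ne_zero_of_finite
  have h5 : Nat.card Q.toAddSubgroup = Nat.card Q := rfl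
  rw [h1, h5] at h2
  obtain ⟨q, hq, hqi⟩ := Nat.exists_prime_and_dvd h3
  have : Fact q.Prime := ⟨hq⟩
  have hqQ : q ∣ Nat.card Q := (hqi.trans (Dvd.intro_left _ h2))
  have : Finite Q.toAddSubgroup := hQ
  obtain ⟨x, hx⟩ := exists_prime_addOrderOf_dvd_card' (G := Q.toAddSubgroup) q hqQ
  have h6 : q ∣ m := by
    rw [← hx]
    refine addOrderOf_dvd_of_nsmul_eq_zero ?_
    ext
    simpa using htor x.1
  have h7 : m.minFac ≤ q := Nat.minFac_le_of_dvd hq.two_le h6
  have h8 : q ≤ i := Nat.le_of_dvd (Nat.pos_of_ne_zero h4) hqi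
  calc m.minFac * Nat.card P ≤ i * Nat.card P := Nat.mul_le_mul_right _ (h7.trans h8)
    _ = Nat.card Q := by rw [mul_comm, h2]

/-- Groups of bounded exponent with one endomorphism. -/
theorem exponent_aux (m : ℕ) {Γ : Type u} [AddCommGroup Γ] [DecidableEq Γ]
    (htor : ∀ x : Γ, m • x = 0) (T : Γ →+ Γ) (K L : ℝ) (A : Finset Γ) (hA : A.Nonempty)
    (hT : ((A + A.image T).card : ℝ) ≤ K * A.card)
    (hup : ∃ (H : AddSubgroup Γ) (S : Finset Γ), Finite H ∧ Nat.card H ≤ A.card ∧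
      (S.card : ℝ) ≤ L ∧ ∀ a ∈ A, ∃ t ∈ S, a - t ∈ H) :
    ∃ (N : Submodule ℤ Γ) (r : ℕ) (v : Fin r → Γ) (l : Fin r → ℕ) (S : Finset Γ),
      (∀ i, 1 ≤ l i) ∧ (∀ x ∈ N, T x ∈ N) ∧ Finite (chn T.toIntLinearMap N v l) ∧
      Nat.card (chn T.toIntLinearMap N v l) ≤ A.card ∧ (S.card : ℝ) ≤ L ∧
      (∀ a ∈ A, ∃ s ∈ S, a - s ∈ chn T.toIntLinearMap N v l) ∧
      (m.minFac : ℝ) ^ r ≤ K * L ^ 2 ∧
      m.minFac ^ (∑ i, l i) * Nat.card N ≤ Nat.card (chn T.toIntLinearMap N v l) := by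
  obtain ⟨H, S, hf, h1, h2, h3⟩ := hup
  set HZ : Submodule ℤ Γ := AddSubgroup.toIntSubmodule H with hHZ
  have hfz : Finite HZ := hf
  have h3' : ∀ a ∈ A, ∃ s ∈ S, a - s ∈ HZ := h3
  have hcard : Nat.card HZ = Nat.card H := rfl
  have h4 := almost T.toIntLinearMap HZ A S hA K _ h2 h3' hT
  obtain ⟨N, r, v, l, g1, g2, g3, g4⟩ := structure_fin T.toIntLinearMap HZ
  obtain ⟨g5, g6⟩ := g4 _ (HC_exp m htor)
  refine ⟨N, r, v, l, S, g1, g2, g3 ▸ hfz, ?_, h2, fun a ha => g3 ▸ h3' a ha, ?_, g3 ▸ g6⟩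
  · rw [← g3, hcard]
    exact h1
  set H' : Submodule ℤ Γ := HZ ⊓ HZ.comap T.toIntLinearMap with hH'
  have hH'f : Finite H' := (Set.toFinite (HZ : Set Γ)).subset inf_le_left
  have hpos : (0 : ℝ) < Nat.card H' := by
    exact_mod_cast (Nat.card_pos : 0 < Nat.card H')
  have e1 : (m.minFac : ℝ) ^ r * Nat.card H' ≤ Nat.card HZ := by
    exact_mod_cast g5
  have e2 : (m.minFac : ℝ) ^ r * Nat.card H' ≤ K * L ^ 2 * Nat.card H' :=
    (e1.trans (by rw [hcard]; exact_mod_cast h1)).trans h4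
  exact le_of_mul_le_mul_right e2 hpos

/-- Groups of bounded exponent with one endomorphism. -/
theorem exponent (m : ℕ) (hm : 0 < m) {Γ : Type u} [AddCommGroup Γ] [DecidableEq Γ]
    (htor : ∀ x : Γ, m • x = 0) (T : Γ →+ Γ) (K : ℝ) (A : Finset Γ) (hA : A.Nonempty)
    (hK : ((A + A).card : ℝ) ≤ K * A.card) (hT : ((A + A.image T).card : ℝ) ≤ K * A.card) :
    ∃ (N : Submodule ℤ Γ) (r : ℕ) (v : Fin r → Γ) (l : Fin r → ℕ) (S : Finset Γ),
      (∀ i, 1 ≤ l i) ∧ (∀ x ∈ N, T x ∈ N) ∧ Finite (chn T.toIntLinearMap N v l) ∧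
      Nat.card (chn T.toIntLinearMap N v l) ≤ A.card ∧
      (S.card : ℝ) ≤ (2 * K) ^ (41005 * (Nat.log 2 m + 1)) ∧
      (∀ a ∈ A, ∃ s ∈ S, a - s ∈ chn T.toIntLinearMap N v l) ∧
      (m.minFac : ℝ) ^ r ≤ K * ((2 * K) ^ (41005 * (Nat.log 2 m + 1))) ^ 2 ∧
      m.minFac ^ (∑ i, l i) * Nat.card N ≤ Nat.card (chn T.toIntLinearMap N v l) :=
  exponent_aux m htor T K _ A hA hT (Pool.Agent.TH404.Tor.upper m hm htor K A hA hK)

/-- `A + A` is small if `A + T A` is small and `T` is injective -/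
theorem double {Γ : Type u} [AddCommGroup Γ] [DecidableEq Γ] (T : Γ → Γ)
    (hT : Function.Injective T) (K : ℝ) (A : Finset Γ) (hA : A.Nonempty)
    (hK : ((A + A.image T).card : ℝ) ≤ K * A.card) : ((A + A).card : ℝ) ≤ K ^ 2 * A.card := by
  have hB : (A.image T).Nonempty := hA.image T
  have hc : (A.image T).card = A.card := Finset.card_image_of_injective A hT
  have h1 := Finset.pluennecke_ruzsa_inequality_nsmul_add hB A 2
  rw [two_nsmul, hc, add_comm (A.image T) A] at h1
  have hA0 : (0 : ℝ) < A.card := by exact_mod_cast hA.card_pos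
  have h2 : ((A + A).card : ℝ) ≤ (((A + A.image T).card : ℝ) / A.card) ^ 2 * A.card := by
    have h3 := (NNRat.cast_le (K := ℝ)).2 h1
    push_cast at h3
    exact h3
  refine h2.trans (mul_le_mul_of_nonneg_right ?_ hA0.le)
  refine pow_le_pow_left₀ (by positivity) ?_ 2
  rw [div_le_iff₀ hA0]
  exact hK

/-- the polynomial combinations with given coefficients -/
noncomputable def comb {p : ℕ} {k : Type u} [Field k] [Algebra (ZMod p) k] (lam : k) {r : ℕ}
    (v : Fin r → k) (l : Fin r → ℕ) (c : (i : Fin r) → Fin (l i) → ZMod p) : k :=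
  ∑ i, ∑ j : Fin (l i), c i j • (lam ^ (j : ℕ) * v i)

theorem comb_poly {p : ℕ} [Fact p.Prime] {k : Type u} [Field k] [Algebra (ZMod p) k] (lam : k)
    {r : ℕ} (v : Fin r → k) (l : Fin r → ℕ) (hl : ∀ i, 1 ≤ l i) (f : Fin r → Polynomial (ZMod p))
    (hf : ∀ i, (f i).degree < l i) :
    ∑ i, Polynomial.aeval lam (f i) * v i = comb lam v l (fun i j => (f i).coeff j) := by
  unfold comb
  refine Finset.sum_congr rfl fun i _ => ?_
  have h1 : (f i).natDegree < l i := by
    by_cases h0 : f i = 0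
    · rw [h0, Polynomial.natDegree_zero]
      exact hl i
    · exact (Polynomial.natDegree_lt_iff_degree_lt h0).2 (hf i)
  rw [Polynomial.aeval_eq_sum_range' h1, Finset.sum_mul, ← Fin.sum_univ_eq_sum_range
    (fun j => (f i).coeff j • lam ^ j * v i)]
  refine Finset.sum_congr rfl fun j _ => ?_
  rw [smul_mul_assoc]

/-- Multiplication by a transcendental element of a field of characteristic `p`. -/
theorem transc (p : ℕ) [Fact p.Prime] {k : Type u} [Field k] [Algebra (ZMod p) k]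
    [DecidableEq k] (lam : k) (hlam : Transcendental (ZMod p) lam) (K : ℝ) (A : Finset k)
    (hA : A.Nonempty) (hK : ((A + A.image fun x => lam * x).card : ℝ) ≤ K * A.card) :
    ∃ (r : ℕ) (v : Fin r → k) (l : Fin r → ℕ) (S : Finset k),
      (∀ i, 1 ≤ l i) ∧ (S.card : ℝ) ≤ (2 * K ^ 2) ^ (41005 * (Nat.log 2 p + 1)) ∧
      (p : ℝ) ^ r ≤ K ^ 2 * ((2 * K ^ 2) ^ (41005 * (Nat.log 2 p + 1))) ^ 2 ∧
      p ^ (∑ i, l i) ≤ A.card ∧
      (∀ a ∈ A, ∃ s ∈ S, ∃ f : Fin r → Polynomial (ZMod p), (∀ i, (f i).degree < l i) ∧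
        a - s = ∑ i, Polynomial.aeval lam (f i) * v i) ∧
      ∀ f : Fin r → Polynomial (ZMod p), (∀ i, (f i).degree < l i) →
        ∑ i, Polynomial.aeval lam (f i) * v i = 0 → f = 0 := by
  have hp : p.Prime := Fact.out
  have hchar : CharP k p := (Algebra.charP_iff (ZMod p) k p).1 inferInstance
  have hlam0 : lam ≠ 0 := by
    rintro rfl
    exact hlam (isAlgebraic_zero)
  have hinj : Function.Injective fun x : k => lam * x := mul_right_injective₀ hlam0
  have hA0 : (0 : ℝ) < A.card := by exact_mod_cast hA.card_pos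
  have hK1 : 1 ≤ K := by
    have h1 : A.card ≤ (A + A.image fun x => lam * x).card :=
      Finset.card_le_card_add_right (hA.image _)
    have h2 : (A.card : ℝ) ≤ K * A.card := le_trans (by exact_mod_cast h1) hK
    by_contra h
    push Not at h
    nlinarith
  have h2 := double (fun x : k => lam * x) hinj K A hA hK
  have h3 : ((A + A.image (AddMonoidHom.mulLeft lam)).card : ℝ) ≤ K ^ 2 * A.card :=
    hK.trans (mul_le_mul_of_nonneg_right (by nlinarith) hA0.le)
  have htor : ∀ x : k, p • x = 0 := fun x => by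
    rw [nsmul_eq_mul, CharP.cast_eq_zero, zero_mul]
  obtain ⟨N, r, v, l, S, g1, g2, g3, g4, g5, g6, g7, g8⟩ :=
    exponent p hp.pos htor (AddMonoidHom.mulLeft lam) (K ^ 2) A hA h2 h3
  rw [hp.minFac_eq] at g7 g8
  set Q := chn (AddMonoidHom.mulLeft lam).toIntLinearMap N v l with hQ
  -- there are no finite stable subgroups
  have hNf : Finite N := (Set.toFinite (Q : Set k)).subset (le_chn _ N v l)
  have hN : N = ⊥ := by
    rw [eq_bot_iff]
    intro x hx
    rw [mem_bot]
    by_contra hx0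
    have hpow : ∀ n : ℕ, lam ^ n * x ∈ N := by
      intro n
      induction n with
      | zero => simpa using hx
      | succ n ih =>
        have := g2 _ ih
        rw [AddMonoidHom.coe_mulLeft, ← mul_assoc, ← pow_succ'] at this
        exact this
    obtain ⟨m, n, hmn, h⟩ := Finite.exists_ne_map_eq_of_infinite
      (fun n : ℕ => (⟨lam ^ n * x, hpow n⟩ : N))
    simp only [Subtype.mk.injEq] at h
    have h5 : lam ^ m = lam ^ n := mul_right_cancel₀ hx0 h
    refine hlam ⟨Polynomial.X ^ m - Polynomial.X ^ n, ?_, ?_⟩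
    · intro h6
      have h7 := congrArg (fun q => Polynomial.coeff q m) h6
      simp [Polynomial.coeff_X_pow, hmn] at h7
    · simp [h5]
  have hiter : ∀ (j : ℕ) (x : k), (AddMonoidHom.mulLeft lam).toIntLinearMap^[j] x = lam ^ j * x := by
    intro j x
    induction j with
    | zero => simp
    | succ j ih =>
      rw [Function.iterate_succ_apply', ih, pow_succ', mul_assoc]
      rfl
  -- the map from the coefficients
  have hmem : ∀ c : (i : Fin r) → Fin (l i) → ZMod p, comb lam v l c ∈ Q := by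
    intro c
    unfold comb
    refine Q.sum_mem fun i _ => Q.sum_mem fun j _ => ?_
    have h5 : lam ^ (j : ℕ) * v i ∈ Q := by
      have := chain_mem (AddMonoidHom.mulLeft lam).toIntLinearMap N v l i j j.2
      rwa [hiter] at this
    have h6 : c i j • (lam ^ (j : ℕ) * v i) = (c i j).val • (lam ^ (j : ℕ) * v i) := by
      conv_lhs => rw [← ZMod.natCast_zmod_val (c i j)]
      rw [Nat.cast_smul_eq_nsmul]
    rw [h6]
    exact Q.smul_of_tower_mem (c i j).val h5
  have hsurj : ∀ x ∈ Q, ∃ c : (i : Fin r) → Fin (l i) → ZMod p, comb lam v l c = x := by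
    let P : Submodule ℤ k :=
      { carrier := {x | ∃ c : (i : Fin r) → Fin (l i) → ZMod p, comb lam v l c = x}
        zero_mem' := ⟨0, by simp [comb]⟩
        add_mem' := by
          rintro _ _ ⟨c, rfl⟩ ⟨d, rfl⟩
          exact ⟨c + d, by simp [comb, add_smul, Finset.sum_add_distrib]⟩
        smul_mem' := by
          rintro n _ ⟨c, rfl⟩
          refine ⟨n • c, ?_⟩
          simp only [comb, Finset.smul_sum, Pi.smul_apply, smul_assoc] }
    have : Q ≤ P := by
      refine chn_le _ (hN ▸ bot_le) fun i j hj => ?_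
      rw [hiter]
      refine ⟨fun i' j' => if i' = i ∧ (j' : ℕ) = j then 1 else 0, ?_⟩
      unfold comb
      rw [Finset.sum_eq_single i, Finset.sum_eq_single ⟨j, hj⟩]
      · simp
      · intro b _ hb
        have : (b : ℕ) ≠ j := fun h => hb (Fin.ext h)
        simp [this]
      · simp
      · intro b _ hb
        simp [hb]
      · simp
    exact fun x hx => this hx
  have hcard : Nat.card ((i : Fin r) → Fin (l i) → ZMod p) = p ^ (∑ i, l i) := by
    rw [Nat.card_pi]
    simp_rw [Nat.card_fun, Nat.card_zmod, Nat.card_fin]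
    rw [Finset.prod_pow_eq_pow_sum]
  have hN1 : Nat.card N = 1 := by rw [hN]; simp
  rw [hN1, mul_one] at g8
  have hbij : Function.Bijective
      (fun c : (i : Fin r) → Fin (l i) → ZMod p => (⟨comb lam v l c, hmem c⟩ : Q)) := by
    have : Finite ((i : Fin r) → Fin (l i) → ZMod p) := inferInstance
    refine Function.Surjective.bijective_of_nat_card_le ?_ (by rw [hcard]; exact g8)
    rintro ⟨x, hx⟩
    obtain ⟨c, hc⟩ := hsurj x hx
    exact ⟨c, Subtype.ext hc⟩
  refine ⟨r, v, l, S, g1, g5, g7, g8.trans g4, ?_, ?_⟩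
  · intro a ha
    obtain ⟨s, hs, h⟩ := g6 a ha
    obtain ⟨c, hc⟩ := hsurj _ h
    refine ⟨s, hs, fun i => ∑ j : Fin (l i), Polynomial.C (c i j) * Polynomial.X ^ (j : ℕ),
      fun i => ?_, ?_⟩
    · refine (Polynomial.degree_sum_le _ _).trans_lt ?_
      rw [Finset.sup_lt_iff (by exact WithBot.bot_lt_coe (l i))]
      intro j _
      refine (Polynomial.degree_C_mul_X_pow_le _ _).trans_lt ?_
      exact_mod_cast j.2
    · rw [← hc]
      unfold comb
      refine Finset.sum_congr rfl fun i _ => ?_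
      rw [map_sum, Finset.sum_mul]
      refine Finset.sum_congr rfl fun j _ => ?_
      rw [map_mul, Polynomial.aeval_C, map_pow, Polynomial.aeval_X, Algebra.smul_def, mul_assoc]
  · intro f hf h
    rw [comb_poly lam v l g1 f hf] at h
    have h5 := hbij.1 (a₁ := fun i j => (f i).coeff j) (a₂ := 0) (by
      ext
      simp only
      rw [h]
      simp [comb])
    funext i
    ext j
    by_cases hj : j < l i
    · exact congrFun (congrFun h5 i) ⟨j, hj⟩
    · rw [Polynomial.coeff_eq_zero_of_degree_lt ((hf i).trans_le (by exact_mod_cast not_lt.1 hj))]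
      simp

end Run7.h838.PT
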